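import Pool.Agent.Q297.DRC.Main

/-!
# MP_668d6d_lc, Q1

There is an ordered field, dense in its real closure, with a nontrivial convex valuation ring which
is definable (without parameters) in the language of ordered rings.
-/

namespace Pool.Agent.Results.MP_668d6d_lc.DefinableConvexValuation

open Pool.Agent.Q297.DRC

/-- There is an ordered field `K` which is dense in its real closure and which has a nontrivial
convex valuation ring `O` that is definable, even without parameters, in the language of ordered
rings. -/
theorem result : ∃ (K : Type) (_ : Field K) (_ : LinearOrder K) (_ : IsStrictOrderedRing K),
    DenseInRealClosure K ∧ ∃ O : ValuationSubring K, O ≠ ⊤ ∧ (O : Set K).OrdConnected ∧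
      OrDefinable K ∅ (O : Set K) :=
  main

end Pool.Agent.Results.MP_668d6d_lc.DefinableConvexValuation
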